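import Pool.Agent.N869.GK.StmX
import Pool.Agent.W335.BMX.Odd
import Pool.Agent.W975.BMX.Two
import Pool.Agent.N856.JL.FB

/-!
# Project GK (helper869), exact law, part APX (helper67): approximation
-/

set_option autoImplicit false
set_option linter.unusedVariables false

open scoped Classical

namespace Pool.Agent.N67.GK.APX

open Finset
open Pool.Agent.N869.GK Pool.Agent.N869.GK.D Pool.Agent.N869.GK.X
open Pool.Agent.N856.JL.FB (crt)

lemma decomp (z : ℤ) (hz : z ≠ 0) (q : ℕ) : ∃ (v : ℕ) (m : ℤ), z = (q : ℤ) ^ v * m ∧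
    (q.Prime → ¬ (q : ℤ) ∣ m) := by
  by_cases hq : q.Prime
  · have hf : FiniteMultiplicity (q : ℤ) z := by
      rw [Int.finiteMultiplicity_iff]
      refine ⟨?_, hz⟩
      rw [Int.natAbs_natCast]
      exact hq.one_lt.ne'
    obtain ⟨c, hc, hn⟩ := hf.exists_eq_pow_mul_and_not_dvd
    exact ⟨_, c, hc, fun _ => hn⟩
  · exact ⟨0, z, by rw [pow_zero, one_mul], fun h => absurd h hq⟩

lemma sqP {p : ℕ} [hp : Fact p.Prime] {s R u T v m c z : ℤ} {k : ℕ} (hR : T * R = z * z)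
    (hT : T = (p : ℤ) ^ k * c) (hs : s = (p : ℤ) ^ k * m) (hT0 : T ≠ 0)
    (h : IsSquare ((m * c * u : ℤ) : ℚ_[p])) : IsSquare ((s * (R * u) : ℤ) : ℚ_[p]) := by
  obtain ⟨w, hw⟩ := h
  have hT0' : (T : ℚ_[p]) ≠ 0 := by exact_mod_cast hT0
  have hR' : (T : ℚ_[p]) * R = z * z := by exact_mod_cast hR
  have hT' : (T : ℚ_[p]) = (p : ℚ_[p]) ^ k * c := by exact_mod_cast hT
  have hs' : (s : ℚ_[p]) = (p : ℚ_[p]) ^ k * m := by exact_mod_cast hs
  push_cast at hw
  refine ⟨(p : ℚ_[p]) ^ k * z * w / T, ?_⟩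
  rw [div_mul_div_comm, eq_div_iff (mul_ne_zero hT0' hT0')]
  push_cast
  have h1 : (s : ℚ_[p]) * (R * u) * (T * T) = (s * T) * (T * R) * u := by ring
  rw [h1, hR', hs']
  have h2 : ((p : ℚ_[p]) ^ k * m * T) * (z * z) * u =
      ((p : ℚ_[p]) ^ k * m * ((p : ℚ_[p]) ^ k * c)) * (z * z) * u := by rw [hT']
  rw [h2]
  linear_combination ((p : ℚ_[p]) ^ k * z) ^ 2 * hw

/-- **(APX)** -/
theorem t_APX : S_APX := by
  intro hgen hlab b r g hG t s ht hs
  obtain ⟨-, hgen⟩ := hgen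
  obtain ⟨hsf, -, -, -, hcl⟩ := hgen b r g hG
  choose v m hd hm using fun q => decomp (s q) (hs q) q
  have hP : ∀ q ∈ insert 2 b, q.Prime := by
    intro q hq
    rcases mem_insert.1 hq with rfl | hq
    · exact Nat.prime_two
    · exact (hG.odd q hq).1
  have hsg : Int.sign t ≠ 0 := by
    rw [Ne, Int.sign_eq_zero_iff_zero]
    exact ht
  have hsu : IsUnit (Int.sign t) := by
    rcases lt_trichotomy t 0 with h | h | h
    · rw [Int.sign_eq_neg_one_of_neg h]
      exact isUnit_one.neg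
    · exact absurd h ht
    · rw [Int.sign_eq_one_of_pos h]
      exact isUnit_one
  obtain ⟨T, hTdef⟩ : ∃ T : ℤ, T = Int.sign t * ∏ q ∈ insert 2 b, (q : ℤ) ^ v q := ⟨_, rfl⟩
  have hpos : 0 < ∏ q ∈ insert 2 b, (q : ℤ) ^ v q :=
    prod_pos fun q hq => pow_pos (by exact_mod_cast (hP q hq).pos) _
  have hT0 : T ≠ 0 := by
    rw [hTdef]
    exact mul_ne_zero hsg hpos.ne'
  have hTp : ∀ p : ℕ, p.Prime → (p : ℤ) ∣ T → p = 2 ∨ p ∈ b := by
    intro p hp hpT
    rw [hTdef] at hpT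
    have hp' := Nat.prime_iff_prime_int.1 hp
    rcases hp'.dvd_or_dvd hpT with h | h
    · exact absurd (isUnit_of_dvd_unit h hsu) hp'.not_unit
    · obtain ⟨q, hq, hq2⟩ := (hp'.dvd_finset_prod_iff _).1 h
      have h3 := hp'.dvd_of_dvd_pow hq2
      have h4 : p ∣ q := by exact_mod_cast h3
      have h5 : p = q := (Nat.prime_dvd_prime_iff_eq hp (hP q hq)).1 h4
      rw [h5]
      exact mem_insert.1 hq
  obtain ⟨z, hz⟩ := hcl T hT0 hTp
  have hR0 : rep g (ecl g T) ≠ 0 := (hsf _).ne_zero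
  have hz0 : z ≠ 0 := by
    rintro rfl
    rw [mul_zero] at hz
    exact (mul_ne_zero hT0 hR0) hz
  obtain ⟨c, hc⟩ : ∃ c : ℕ → ℤ, ∀ p ∈ insert 2 b, T = (p : ℤ) ^ v p * c p ∧ ¬ (p : ℤ) ∣ c p := by
    refine ⟨fun p => Int.sign t * ∏ q ∈ (insert 2 b).erase p, (q : ℤ) ^ v q, fun p hp => ⟨?_, ?_⟩⟩
    · rw [hTdef, ← mul_prod_erase _ _ hp]
      ring
    · intro h
      have hp' := Nat.prime_iff_prime_int.1 (hP p hp)
      rcases hp'.dvd_or_dvd h with h | h
      · exact absurd (isUnit_of_dvd_unit h hsu) hp'.not_unit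
      · obtain ⟨q, hq, hq2⟩ := (hp'.dvd_finset_prod_iff _).1 h
        have h3 := hp'.dvd_of_dvd_pow hq2
        have h4 : p ∣ q := by exact_mod_cast h3
        have h5 : p = q :=
          (Nat.prime_dvd_prime_iff_eq (hP p hp) (hP q (mem_of_mem_erase hq))).1 h4
        exact (mem_erase.1 hq).1 h5.symm
  have hmc : ∀ p ∈ insert 2 b, ¬ (p : ℤ) ∣ m p * c p := by
    intro p hp h
    have hp' := Nat.prime_iff_prime_int.1 (hP p hp)
    rcases hp'.dvd_or_dvd h with h | h
    · exact hm p (hP p hp) h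
    · exact (hc p hp).2 h
  have h2m : (m 2 * c 2) % 2 = 1 := by
    have := hmc 2 (mem_insert_self 2 b)
    push_cast at this
    omega
  -- the residues
  have hr : ∀ q ∈ b, (((m q * c q) % (q : ℤ)).toNat).Coprime q := by
    intro q hq
    have hqp := (hG.odd q hq).1
    rw [Nat.coprime_comm, hqp.coprime_iff_not_dvd]
    intro h
    have h1 : 0 ≤ (m q * c q) % (q : ℤ) := Int.emod_nonneg _ (by exact_mod_cast hqp.ne_zero)
    have h2 : (q : ℤ) ∣ (((m q * c q) % (q : ℤ)).toNat : ℤ) := by exact_mod_cast h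
    rw [Int.toNat_of_nonneg h1] at h2
    exact hmc q (mem_insert_of_mem hq) ((Int.dvd_iff_emod_eq_zero).2 (by
      rw [Int.dvd_iff_emod_eq_zero, Int.emod_emod_of_dvd _ (dvd_refl _)] at h2
      exact h2))
  obtain ⟨u, hu1, hu2, hu3⟩ := crt b (fun l hl => ⟨(hG.odd l hl).1, (hG.odd l hl).2⟩)
    (fun q => ((m q * c q) % (q : ℤ)).toNat) hr (((m 2 * c 2) % 8).toNat) (by
      omega)
  have hu0 : u ≠ 0 := by
    rintro rfl
    have h1 : (m 2 * c 2) % 8 % 2 = 1 := by omega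
    omega
  refine ⟨ecl g T, u, hu1, ?_, ?_⟩
  · -- the real place
    have hpos1 : 0 < t * T := by
      rw [hTdef, ← mul_assoc, Int.mul_sign_self]
      exact mul_pos (by
        have : t.natAbs ≠ 0 := by rwa [Ne, Int.natAbs_eq_zero]
        omega) hpos
    have hpos2 : 0 < (t * (rep g (ecl g T) * u)) := by
      have h1 : 0 < T * T := mul_self_pos.2 hT0
      have h2 : (t * (rep g (ecl g T) * u)) * (T * T) = (t * T) * (z * z) * u := by
        rw [← hz]
        ring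
      have h3 : 0 < (t * T) * (z * z) * u := by
        have : (0:ℤ) < u := by omega
        exact mul_pos (mul_pos hpos1 (mul_self_pos.2 hz0)) this
      rw [← h2] at h3
      exact (mul_pos_iff_of_pos_right h1).1 h3
    have hpos3 : (0:ℝ) ≤ ((t * (rep g (ecl g T) * u) : ℤ) : ℝ) := by exact_mod_cast hpos2.le
    exact ⟨√((t * (rep g (ecl g T) * u) : ℤ) : ℝ), (Real.mul_self_sqrt hpos3).symm⟩
  · intro p hp hpM
    have hmem : p ∈ insert 2 b := by
      rcases (Nat.Prime.dvd_mul hp.out).1 hpM with h | h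
      · have h1 : p ∣ 2 ^ 3 := by simpa using h
        have h2 := hp.out.dvd_of_dvd_pow h1
        rw [(Nat.prime_dvd_prime_iff_eq hp.out Nat.prime_two).1 h2]
        exact mem_insert_self 2 b
      · obtain ⟨q, hq, hq2⟩ := (hp.out.prime.dvd_finset_prod_iff _).1 h
        rw [(Nat.prime_dvd_prime_iff_eq hp.out (hG.odd q hq).1).1 hq2]
        exact mem_insert_of_mem hq
    refine sqP (v := 0) hz (hc p hmem).1 (hd p) hT0 ?_
    rcases mem_insert.1 hmem with rfl | hpb
    · -- p = 2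
      have h8 : (m 2 * c 2 * (u : ℤ)) % 8 = 1 := by
        have h1 : (u : ℤ) % 8 = (m 2 * c 2) % 8 := by omega
        rw [Int.mul_emod, h1]
        have h2 : (m 2 * c 2) % 8 = 1 ∨ (m 2 * c 2) % 8 = 3 ∨ (m 2 * c 2) % 8 = 5 ∨
            (m 2 * c 2) % 8 = 7 := by omega
        rcases h2 with h | h | h | h <;> rw [h] <;> norm_num
      obtain ⟨w, hw⟩ := Pool.Agent.W975.BMX.sq_of_mod' _ h8
      exact ⟨w, by rw [← hw, sq]⟩
    · have hp2 := (hG.odd p hpb).2
      have hup : ¬ p ∣ u := by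
        have h1 : u.Coprime p :=
          Nat.Coprime.coprime_dvd_right (Dvd.dvd.mul_left (dvd_prod_of_mem _ hpb) 8) hu1
        exact (hp.out.coprime_iff_not_dvd).1 h1.symm
      have hnd : ¬ (p : ℤ) ∣ m p * c p * (u : ℤ) := by
        intro h
        have hp' := Nat.prime_iff_prime_int.1 hp.out
        rcases hp'.dvd_or_dvd h with h | h
        · exact hmc p hmem h
        · exact hup (by exact_mod_cast h)
      have hcong : ((u : ℤ) : ZMod p) = ((m p * c p : ℤ) : ZMod p) := by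
        rw [ZMod.intCast_eq_intCast_iff]
        have h1 : 0 ≤ (m p * c p) % (p : ℤ) :=
          Int.emod_nonneg _ (by exact_mod_cast hp.out.ne_zero)
        have h2 := hu3 p hpb
        have h3 : (u : ℤ) % (p : ℤ) = (((m p * c p) % (p : ℤ)).toNat : ℤ) % (p : ℤ) := by
          exact_mod_cast h2
        rw [Int.toNat_of_nonneg h1, Int.emod_emod_of_dvd _ (dvd_refl _)] at h3
        exact h3
      have h1 : legendreSym p (m p * c p * (u : ℤ)) = 1 := by
        rw [legendreSym.eq_one_iff p (Pool.Agent.W335.BMX.cast_ne_zero hnd), Int.cast_mul, hcong]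
        exact ⟨_, rfl⟩
      have h2 := Pool.Agent.W335.BMX.isSquare_coe
        (Pool.Agent.W335.BMX.sq_of_residue' hp2 _ hnd h1)
      simpa using h2

end Pool.Agent.N67.GK.APX
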